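import Mathlib
import Pool.Agent.X213.BalleanCoarse

set_option autoImplicit false

open Pool.Agent.X213 Pool.Agent.X213.Ballean

namespace Pool.Agent.Results.MP_da2089_gt.ProductEmuBounded

universe u v

/-- Eventually macro-uniform functions. -/
def EventuallyMacroUniform {X : Type u} (b : Ballean X) (f : X → ℝ) : Prop :=
  ∀ E ∈ b.ent, ∃ B, b.Bounded B ∧ (⨆ x ∈ Bᶜ, Metric.ediam (f '' ball E x)) < ⊤

/-- Emu-bounded balleans. -/
def EmuBounded {X : Type u} (b : Ballean X) : Prop :=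
  ∀ f : X → ℝ, EventuallyMacroUniform b f → ∃ B, b.Bounded B ∧ ∃ M : ℝ, ∀ x ∉ B, |f x| ≤ M

/-- The supremum of the diameters is finite as soon as there is a common bound. -/
theorem iSup_lt_top {X : Type u} {E : Set (X × X)} {B : Set X} {φ : X → ℝ} {r : ℝ}
    (h : ∀ x ∉ B, ∀ a ∈ ball E x, ∀ a' ∈ ball E x, |φ a - φ a'| ≤ r) :
    (⨆ x ∈ Bᶜ, Metric.ediam (φ '' ball E x)) < ⊤ := by
  refine lt_of_le_of_lt (iSup₂_le fun x hx => ?_) (ENNReal.ofReal_lt_top (r := r))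
  refine Bal.ediam_le_of ?_
  rintro _ ⟨a, ha, rfl⟩ _ ⟨a', ha', rfl⟩
  exact h x hx a ha a' ha'

/-- The product of any two emu-bounded balleans is emu-bounded. -/
theorem result (X : Type u) (Y : Type v) (b : Ballean X) (c : Ballean Y)
    (hb : EmuBounded b) (hc : EmuBounded c) : EmuBounded (Ballean.prod b c) := by
  intro f hf
  obtain ⟨-, ⟨-, -, p₁, -⟩, -⟩ := hf _ (Ballean.prod b c).diag_mem
  -- the variation of `f` on balls
  have hv : ∀ G ∈ (Ballean.prod b c).ent, ∃ B, (Ballean.prod b c).Bounded B ∧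
      ∃ r : ℝ, 0 ≤ r ∧ ∀ p ∉ B, ∀ q ∈ ball G p, ∀ q' ∈ ball G p, |f q - f q'| ≤ r := by
    intro G hG
    obtain ⟨B, hB, h⟩ := hf G hG
    refine ⟨B, hB, (⨆ x ∈ Bᶜ, Metric.ediam (f '' ball G x)).toReal, ENNReal.toReal_nonneg,
      fun p hp q hq q' hq' => ?_⟩
    refine Bal.abs_le_of_ediam (S := f '' ball G p) ENNReal.toReal_nonneg ?_ ⟨q, hq, rfl⟩
      ⟨q', hq', rfl⟩
    rw [ENNReal.ofReal_toReal h.ne]
    exact le_iSup₂ (f := fun x (_ : x ∈ Bᶜ) => Metric.ediam (f '' ball G x)) p hp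
  refine prod_main f p₁ ?_ ?_ ?_
  · intro G hG
    obtain ⟨B, hB, r, -, h⟩ := hv G hG
    exact ⟨B, hB, r, h⟩
  · intro φ hφ
    apply hb φ
    intro E hE
    obtain ⟨B, hB, r, hr, h⟩ := hv _ ⟨E, hE, _, c.diag_mem, subset_rfl⟩
    obtain ⟨C, hC, h'⟩ := vary_left hφ hr hB h
    exact ⟨C, hC, iSup_lt_top h'⟩
  · intro φ hφ
    apply hc φ
    intro F hF
    obtain ⟨B, hB, r, hr, h⟩ := hv _ ⟨_, b.diag_mem, F, hF, subset_rfl⟩
    obtain ⟨C, hC, h'⟩ := vary_right hφ hr hB h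
    exact ⟨C, hC, iSup_lt_top h'⟩

end Pool.Agent.Results.MP_da2089_gt.ProductEmuBounded
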